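import Pool.Agent.R877.RN.Stm2

/-! Project RN, piece ZLIE: the one-step extension on the Lie algebra level, from its matrix form. -/

namespace R819.RN
open Matrix R877.RN

/-- an orthonormal basis for an inner product given as a bilinear form -/
theorem exists_onb {V : Type} [AddCommGroup V] [Module ℝ V] [FiniteDimensional ℝ V]
    (B : V →ₗ[ℝ] V →ₗ[ℝ] ℝ) (hB : IsInner B) :
    ∃ (N : ℕ) (b : Module.Basis (Fin N) ℝ V), ∀ i j, B (b i) (b j) = if i = j then 1 else 0 := by
  let cr : InnerProductSpace.Core ℝ V :=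
    { inner := fun x y => B x y
      conj_inner_symm := fun x y => by simp [hB.symm x y]
      re_inner_nonneg := fun x => by
        by_cases h : x = 0
        · simp [h]
        · exact (hB.pos x h).le
      add_left := fun x y z => by simp
      smul_left := fun x y r => by simp
      definite := fun x hx => by
        by_contra h
        exact (hB.pos x h).ne' hx }
  let _ : NormedAddCommGroup V := cr.toNormedAddCommGroup
  let _ : InnerProductSpace ℝ V := InnerProductSpace.ofCore cr.toCore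
  refine ⟨Module.finrank ℝ V, (stdOrthonormalBasis ℝ V).toBasis, fun i j => ?_⟩
  have h := (orthonormal_iff_ite.1 (stdOrthonormalBasis ℝ V).orthonormal) i j
  rw [OrthonormalBasis.coe_toBasis]
  exact h

/-- change of frame -/
theorem frame {V : Type} [AddCommGroup V] [Module ℝ V] {N : ℕ} (b : Module.Basis (Fin N) ℝ V)
    (c : Mat N) (hc : IsUnit c.det) :
    ∃ e : Module.Basis (Fin N) ℝ V, (∀ i, e i = ∑ p, c⁻¹ p i • b p) ∧
      ∀ r, b r = ∑ k, c k r • e k := by
  have hc' : IsUnit (c⁻¹).det := Matrix.isUnit_nonsing_inv_det c hc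
  let φ := Matrix.toLinearEquiv b c⁻¹ hc'
  have h1 : ∀ i, (b.map φ) i = ∑ p, c⁻¹ p i • b p := by
    intro i
    rw [Module.Basis.map_apply]
    show Matrix.toLin b b c⁻¹ (b i) = _
    rw [Matrix.toLin_self]
  refine ⟨b.map φ, h1, fun r => ?_⟩
  have h2 : ∀ p, ∑ k, c k r * c⁻¹ p k = if p = r then 1 else 0 := by
    intro p
    have h3 : (c⁻¹ * c) p r = (1 : Mat N) p r := by rw [Matrix.nonsing_inv_mul c hc]
    rw [Matrix.mul_apply, Matrix.one_apply] at h3
    rw [← h3]
    exact Finset.sum_congr rfl fun k _ => mul_comm _ _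
  calc b r = ∑ p, (if p = r then (1:ℝ) else 0) • b p := by simp
    _ = ∑ p, (∑ k, c k r * c⁻¹ p k) • b p := by
        refine Finset.sum_congr rfl fun p _ => ?_
        rw [h2]
    _ = ∑ k, c k r • (b.map φ) k := by
        simp_rw [h1, Finset.sum_smul, Finset.smul_sum, smul_smul]
        rw [Finset.sum_comm]

section
variable {g : Type} [LieRing g] [LieAlgebra ℝ g]

theorem sum3 {N : ℕ} (F : Fin N → Fin N → Fin N → ℝ) (e : Fin N → g) :
    ∑ p, ∑ q, ∑ k, F p q k • e k = ∑ k, (∑ p, ∑ q, F p q k) • e k := by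
  simp_rw [Finset.sum_smul]
  symm
  rw [Finset.sum_comm]
  refine Finset.sum_congr rfl fun p _ => ?_
  rw [Finset.sum_comm]

theorem sum4 {N : ℕ} (F : Fin N → Fin N → Fin N → Fin N → ℝ) (e : Fin N → g) :
    ∑ p, ∑ q, ∑ r, ∑ k, F p q r k • e k = ∑ k, (∑ p, ∑ q, ∑ r, F p q r k) • e k := by
  simp_rw [Finset.sum_smul]
  symm
  rw [Finset.sum_comm]
  refine Finset.sum_congr rfl fun p _ => ?_
  rw [Finset.sum_comm]
  refine Finset.sum_congr rfl fun q _ => ?_
  rw [Finset.sum_comm]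

/-- bracket with a linear combination, right slot -/
theorem lie_comb {ι : Type} [Fintype ι] (y : g) (a : ι → ℝ) (v : ι → g) :
    ⁅y, ∑ i, a i • v i⁆ = ∑ i, a i • ⁅y, v i⁆ := by
  rw [lie_sum]
  simp

theorem comb_lie {ι : Type} [Fintype ι] (y : g) (a : ι → ℝ) (v : ι → g) :
    ⁅∑ i, a i • v i, y⁆ = ∑ i, a i • ⁅v i, y⁆ := by
  rw [sum_lie]
  simp

/-- the matrix of an operator in the new frame -/
theorem conj_frame {N : ℕ} (c M : Mat N) (b e : Fin N → g) (y : g)
    (h1 : ∀ i, e i = ∑ p, c⁻¹ p i • b p) (h2 : ∀ r, b r = ∑ k, c k r • e k)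
    (h3 : ∀ i, ⁅y, b i⁆ = ∑ k, M k i • b k) (i : Fin N) :
    ⁅y, e i⁆ = ∑ k, conj c M k i • e k := by
  have h4 : ∀ k, conj c M k i = ∑ p, ∑ q, c⁻¹ p i * (M q p * c k q) := by
    intro k
    unfold conj
    rw [Matrix.mul_apply]
    refine Finset.sum_congr rfl fun p _ => ?_
    rw [Matrix.mul_apply, Finset.sum_mul]
    refine Finset.sum_congr rfl fun q _ => ?_
    ring
  rw [h1 i, lie_comb]
  simp_rw [h3, h4]
  have h5 : ∀ q, b q = ∑ k, c k q • e k := h2
  calc ∑ p, c⁻¹ p i • ∑ q, M q p • b q = ∑ p, c⁻¹ p i • ∑ q, M q p • ∑ k, c k q • e k := by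
        refine Finset.sum_congr rfl fun p _ => ?_
        congr 1
        refine Finset.sum_congr rfl fun q _ => ?_
        rw [← h5 q]
    _ = ∑ p, ∑ q, ∑ k, (c⁻¹ p i * (M q p * c k q)) • e k := by
        simp_rw [Finset.smul_sum, smul_smul]
    _ = ∑ k, (∑ p, ∑ q, c⁻¹ p i * (M q p * c k q)) • e k :=
        sum3 (fun p q k => c⁻¹ p i * (M q p * c k q)) e

theorem act_frame {N : ℕ} (c : Mat N) (μ : Br N) (b e : Fin N → g)
    (h1 : ∀ i, e i = ∑ p, c⁻¹ p i • b p) (h2 : ∀ r, b r = ∑ k, c k r • e k)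
    (h3 : ∀ i j, ⁅b i, b j⁆ = ∑ k, μ i j k • b k) (i j : Fin N) :
    ⁅e i, e j⁆ = ∑ k, act c μ i j k • e k := by
  calc ⁅e i, e j⁆ = ∑ p, c⁻¹ p i • ∑ q, c⁻¹ q j • ⁅b p, b q⁆ := by
        rw [h1 i, comb_lie]
        refine Finset.sum_congr rfl fun p _ => ?_
        rw [h1 j, lie_comb]
    _ = ∑ p, c⁻¹ p i • ∑ q, c⁻¹ q j • ∑ r, μ p q r • ∑ k, c k r • e k := by
        refine Finset.sum_congr rfl fun p _ => ?_
        congr 1
        refine Finset.sum_congr rfl fun q _ => ?_
        rw [h3 p q]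
        congr 1
        refine Finset.sum_congr rfl fun r _ => ?_
        rw [← h2 r]
    _ = ∑ p, ∑ q, ∑ r, ∑ k, (c k r * μ p q r * c⁻¹ p i * c⁻¹ q j) • e k := by
        simp_rw [Finset.smul_sum, smul_smul]
        refine Finset.sum_congr rfl fun p _ => Finset.sum_congr rfl fun q _ =>
          Finset.sum_congr rfl fun r _ => Finset.sum_congr rfl fun k _ => ?_
        congr 1
        ring
    _ = ∑ k, act c μ i j k • e k :=
        sum4 (fun p q r k => c k r * μ p q r * c⁻¹ p i * c⁻¹ q j) e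

/-- the operator `ad (Z + w)` in the basis `b` -/
theorem ad_add {N : ℕ} (μ : Br N) (M : Mat N) (b : Fin N → g) (Z : g) (w : Fin N → ℝ)
    (h3 : ∀ i j, ⁅b i, b j⁆ = ∑ k, μ i j k • b k) (h4 : ∀ i, ⁅Z, b i⁆ = ∑ k, M k i • b k)
    (i : Fin N) : ⁅Z + ∑ p, w p • b p, b i⁆ = ∑ k, (M + adm μ w) k i • b k := by
  rw [add_lie, h4 i, comb_lie]
  simp_rw [Matrix.add_apply, add_smul]
  rw [Finset.sum_add_distrib]
  congr 1
  unfold adm
  simp_rw [h3, Finset.smul_sum, smul_smul, Finset.sum_smul]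
  rw [Finset.sum_comm]

/-- the frame of the one-dimensional extension -/
theorem extc_frame {N : ℕ} (ν : Br N) (A : Mat N) (t : ℝ) (y : g) (e : Fin N → g)
    (v : Option (Fin N) → g) (hv0 : v none = t • y) (hv1 : ∀ i, v (some i) = e i)
    (h1 : ∀ i, ⁅y, e i⁆ = ∑ k, A k i • e k) (h2 : ∀ i j, ⁅e i, e j⁆ = ∑ k, ν i j k • e k)
    (i j : Option (Fin N)) : ⁅v i, v j⁆ = ∑ k, extc ν A t i j k • v k := by
  rw [Fintype.sum_option]
  rcases i with _ | i <;> rcases j with _ | j
  · rw [lie_self]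
    simp [extc]
  · rw [hv0, hv1, smul_lie, h1]
    simp only [extc, zero_smul, zero_add, hv1]
    rw [Finset.smul_sum]
    exact Finset.sum_congr rfl fun k _ => by rw [smul_smul]
  · rw [hv0, hv1, lie_smul, ← lie_skew, h1]
    simp only [extc, zero_smul, zero_add, hv1]
    rw [smul_neg, Finset.smul_sum, ← Finset.sum_neg_distrib]
    exact Finset.sum_congr rfl fun k _ => by rw [smul_smul, neg_smul]
  · rw [hv1, hv1, h2]
    simp only [extc, zero_smul, zero_add, hv1]

end

/-- negative Ricci curvature from an orthonormal basis and its structure constants -/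
theorem negRic_of (hR : P_RIC) (hL : P_LC) {g : Type} [LieRing g] [LieAlgebra ℝ g] {ι : Type}
    [Fintype ι] [DecidableEq ι] (b : Module.Basis ι ℝ g) (c : ι → ι → ι → ℝ)
    (h1 : ∀ i j, ⁅b i, b j⁆ = ∑ k, c i j k • b k) (h2 : ∀ X, X ≠ 0 → RF c X < 0) : NegRic g := by
  obtain ⟨B, D, hB, hD, ho⟩ := hL g ι b
  refine ⟨B, D, hB, hD, fun x hx => ?_⟩
  rw [hR g ι b B D hB hD ho x]
  have h3 : sc b = c := by
    funext i j k
    unfold sc
    rw [h1 i j, Module.Basis.repr_sum_self]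
  rw [h3]
  refine h2 _ fun h => hx ?_
  have h4 : b.repr x = 0 := by
    ext i
    exact congrFun h i
  simpa using h4

/-- a basis of a one-dimensional extension -/
theorem ext_basis {V : Type} [AddCommGroup V] [Module ℝ V] {N : ℕ} (H : Submodule ℝ V) (y : V)
    (e : Module.Basis (Fin N) ℝ H) (hy : y ∉ H) (h1 : ∀ v : V, ∃ a : ℝ, ∃ u ∈ H, v = a • y + u) :
    ∃ f : Module.Basis (Option (Fin N)) ℝ V, f none = y ∧ ∀ i, f (some i) = (e i : V) := by
  let f0 := Module.Basis.mkFinCons y e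
    (fun a x hx h => by
      by_contra ha
      apply hy
      have h2 : y = (-a⁻¹) • x := by
        have h3 : a⁻¹ • (a • y + x) = 0 := by rw [h, smul_zero]
        rw [smul_add, smul_smul, inv_mul_cancel₀ ha, one_smul] at h3
        rw [neg_smul]
        exact eq_neg_of_add_eq_zero_left h3
      rw [h2]
      exact H.smul_mem _ hx)
    (fun z => by
      obtain ⟨a, u, hu, h⟩ := h1 z
      refine ⟨-a, ?_⟩
      rw [h]
      have h5 : a • y + u + -a • y = u := by rw [neg_smul]; abel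
      rw [h5]
      exact hu)
  refine ⟨f0.reindex (finSuccEquiv N), ?_, fun i => ?_⟩
  · rw [Module.Basis.reindex_apply]
    show f0 ((finSuccEquiv N).symm none) = y
    rw [finSuccEquiv_symm_none, Module.Basis.coe_mkFinCons]
    rfl
  · rw [Module.Basis.reindex_apply]
    show f0 ((finSuccEquiv N).symm (some i)) = _
    rw [finSuccEquiv_symm_some, Module.Basis.coe_mkFinCons]
    rfl

theorem ext_basis' {V : Type} [AddCommGroup V] [Module ℝ V] {N : ℕ} (H K : Submodule ℝ V) (y : V)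
    (e : Module.Basis (Fin N) ℝ H) (hy : y ∉ H) (hyK : y ∈ K) (hle : H ≤ K)
    (h1 : ∀ v ∈ K, ∃ a : ℝ, ∃ u ∈ H, v = a • y + u) :
    ∃ f : Module.Basis (Option (Fin N)) ℝ K, (f none : V) = y ∧ ∀ i, (f (some i) : V) = e i := by
  obtain ⟨f, hf0, hf1⟩ := ext_basis (H.comap K.subtype) (⟨y, hyK⟩ : K)
    (e.map (Submodule.comapSubtypeEquivOfLe hle).symm) (fun h => hy h) (fun v => by
      obtain ⟨a, u, hu, h⟩ := h1 v.1 v.2
      exact ⟨a, ⟨u, hle hu⟩, hu, Subtype.ext h⟩)
  refine ⟨f, ?_, fun i => ?_⟩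
  · rw [hf0]
  · rw [hf1]
    rfl

end R819.RN

namespace R877.RN
open Matrix R819.RN

/-- ZLIE: one step, Lie algebra form, from its matrix form -/
theorem p_ZLIE (hZ : P_ZSTEP) (hR : P_RIC) (hL : P_LC) : P_ZLIE := by
  intro g _ _ _ h K n Z hn hlt hZh hK hw hNeg
  obtain ⟨B, D, hB, hD, hneg⟩ := hNeg
  have hfd : FiniteDimensional ℝ h := inferInstanceAs (FiniteDimensional ℝ h.toSubmodule)
  obtain ⟨N, b, hb⟩ := exists_onb B hB
  have hin : ∀ x y : g, ⁅x, y⁆ ∈ h := fun x y => hlt.le (hn x y)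
  let μ : Br N := sc b
  let M : Mat N := fun k i => b.repr ⟨⁅Z, (b i : g)⁆, hin _ _⟩ k
  have hμ : Asym μ := by
    intro i j k
    show b.repr ⁅b i, b j⁆ k = - b.repr ⁅b j, b i⁆ k
    rw [← lie_skew, map_neg]
    rfl
  have hRF : ∀ x, x ≠ 0 → RF μ x < 0 := by
    intro x hx
    have h1 := hneg (b.equivFun.symm x) (by
      intro h0
      apply hx
      have h2 := congrArg b.equivFun h0
      rwa [LinearEquiv.apply_symm_apply, map_zero] at h2)
    rw [hR h (Fin N) b B D hB hD hb] at h1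
    have h2 : (fun i => b.repr (b.equivFun.symm x) i) = x := by
      have h3 := b.equivFun.apply_symm_apply x
      funext i
      exact congrFun h3 i
    rw [h2] at h1
    exact h1
  have hrep : ∀ u (hu : u ∈ h), u = ∑ i, b.repr ⟨u, hu⟩ i • (b i : g) := by
    intro u hu
    have h1 := congrArg (Subtype.val) (b.sum_repr ⟨u, hu⟩)
    refine Eq.trans (Eq.symm h1) ?_
    exact (Submodule.coe_sum h.toSubmodule _ _).trans rfl
  have h3 : ∀ i j, ⁅(b i : g), (b j : g)⁆ = ∑ k, μ i j k • (b k : g) := by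
    intro i j
    exact hrep ⁅(b i : g), (b j : g)⁆ (hin _ _)
  have h4 : ∀ i, ⁅Z, (b i : g)⁆ = ∑ k, M k i • (b k : g) := by
    intro i
    exact hrep ⁅Z, (b i : g)⁆ (hin _ _)
  have h5 : ∀ w : Fin N → ℝ, ∀ i, ⁅Z + ∑ p, w p • (b p : g), (b i : g)⁆
      = ∑ k, (M + adm μ w) k i • (b k : g) :=
    fun w i => ad_add μ M (fun i => (b i : g)) Z w h3 h4 i
  have hmem : ∀ w : Fin N → ℝ, ∑ p, w p • (b p : g) ∈ h := fun w =>
    h.toSubmodule.sum_mem fun p _ => h.toSubmodule.smul_mem _ (b p).2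
  have h6 : ∀ w, M + adm μ w ≠ 0 := by
    intro w h0
    obtain ⟨u, hu, hne⟩ := hw (∑ p, w p • (b p : g)) (hmem w)
    apply hne
    rw [hrep u (hlt.le hu), lie_comb]
    refine Finset.sum_eq_zero fun i _ => ?_
    rw [h5 w i, h0]
    simp
  have h8 : ∀ w, ∃ k : Fin N → ℝ, k ≠ 0 ∧ (M + adm μ w)ᵀ *ᵥ k = 0 := by
    intro w
    by_contra hcon
    have hdet : (M + adm μ w).det ≠ 0 := by
      intro h0
      apply hcon
      have h1 : ((M + adm μ w)ᵀ).det = 0 := by
        rw [Matrix.det_transpose]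
        exact h0
      exact Matrix.exists_mulVec_eq_zero_iff.2 h1
    have hu : IsUnit (M + adm μ w).det := isUnit_iff_ne_zero.2 hdet
    have h9 : ∀ l, (b l : g) ∈ n := by
      intro l
      have h10 : (b l : g) = ⁅Z + ∑ p, w p • (b p : g),
          ∑ i, (M + adm μ w)⁻¹ i l • (b i : g)⁆ := by
        rw [lie_comb]
        simp_rw [h5 w, Finset.smul_sum, smul_smul]
        rw [Finset.sum_comm]
        simp_rw [← Finset.sum_smul]
        have h11 : ∀ k, ∑ i, (M + adm μ w)⁻¹ i l * (M + adm μ w) k i = if k = l then 1 else 0 := by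
          intro k
          have h12 : ((M + adm μ w) * (M + adm μ w)⁻¹) k l = (1 : Mat N) k l := by
            rw [Matrix.mul_nonsing_inv _ hu]
          rw [Matrix.mul_apply, Matrix.one_apply] at h12
          rw [← h12]
          exact Finset.sum_congr rfl fun k _ => mul_comm _ _
        simp_rw [h11]
        simp
      rw [h10]
      exact hn _ _
    apply hlt.not_ge
    intro x hx
    rw [hrep x hx]
    exact n.toSubmodule.sum_mem fun p _ => n.toSubmodule.smul_mem _ (h9 p)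
  obtain ⟨c, w, t, hc, ht, hfin⟩ := hZ N μ M hμ hRF h6 h8
  obtain ⟨e, he1, he2⟩ := frame b c hc
  have he1' : ∀ i, (e i : g) = ∑ p, c⁻¹ p i • (b p : g) := by
    intro i
    rw [he1 i]
    simp
  have he2' : ∀ r, (b r : g) = ∑ k, c k r • (e k : g) := by
    intro r
    rw [he2 r]
    simp
  have hA := conj_frame c (M + adm μ w) (fun i => (b i : g)) (fun i => (e i : g))
    (Z + ∑ p, w p • (b p : g)) he1' he2' (h5 w)
  have hB' := act_frame c μ (fun i => (b i : g)) (fun i => (e i : g)) he1' he2' h3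
  have hW := hmem w
  generalize (∑ p, w p • (b p : g)) = W at hA hW
  have hle : h.toSubmodule ≤ K.toSubmodule := by
    rw [hK]
    exact le_sup_right
  have hZK : Z ∈ K.toSubmodule := by
    rw [hK]
    exact Submodule.mem_sup_left (Submodule.mem_span_singleton_self Z)
  obtain ⟨f, hf0, hf1⟩ := ext_basis' h.toSubmodule K.toSubmodule (t • (Z + W)) e
    (fun hmem' => by
      apply hZh
      have h20 : Z = t⁻¹ • (t • (Z + W)) - W := by
        rw [smul_smul, inv_mul_cancel₀ ht, one_smul, add_sub_cancel_right]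
      rw [h20]
      exact h.toSubmodule.sub_mem (h.toSubmodule.smul_mem _ hmem') hW)
    (K.toSubmodule.smul_mem _ (K.toSubmodule.add_mem hZK (hle hW))) hle
    (fun v hv => by
      rw [hK] at hv
      obtain ⟨a, ha, u, hu, rfl⟩ := Submodule.mem_sup.1 hv
      obtain ⟨r, rfl⟩ := Submodule.mem_span_singleton.1 ha
      refine ⟨r * t⁻¹, u - r • W, h.toSubmodule.sub_mem hu (h.toSubmodule.smul_mem _ hW), ?_⟩
      rw [smul_smul, mul_assoc, inv_mul_cancel₀ ht, mul_one, smul_add]
      abel)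
  have hbr : ∀ i j, ⁅(f i : g), (f j : g)⁆
      = ∑ k, extc (act c μ) (conj c (M + adm μ w)) t i j k • (f k : g) :=
    extc_frame (act c μ) (conj c (M + adm μ w)) t (Z + W) (fun i => (e i : g))
      (fun o => (f o : g)) hf0 hf1 hA hB'
  refine negRic_of hR hL (g := K) (ι := Option (Fin N)) f
    (extc (act c μ) (conj c (M + adm μ w)) t) (fun i j => ?_) hfin
  apply Subtype.ext
  rw [LieSubalgebra.coe_bracket]
  refine (hbr i j).trans ?_
  symm
  exact (Submodule.coe_sum _ _ _).trans rfl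

end R877.RN
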